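import Pool.Agent.H.MP_ccfaf0_pr.Main

/-!
# Sparse random regular graphs are not reconstructable from their 3-neighbourhoods

The definitions are in `Pool.Agent.H.MP_ccfaf0_pr.Defs`.

Idea of proof. (1) A switching argument gives `P(F ⊆ G) ≤ (2d/n)^|F|` for every set `F` of at most
`nd/8` edges; hence there are at least `n^(4n)` graphs and on average at most `8192 d^7` vertices
whose 3-neighbourhood is not the regular tree of depth 3.
(2) If at most `d^8` vertices have a 3-neighbourhood other than the tree, the collection of
3-neighbourhoods is one of at most `2^(5n)` collections, so at most `n! * 2^(5n)` labelled graphs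
with this property are reconstructable.
-/

open Filter Topology
open Pool.Agent.H.MP_ccfaf0_pr

namespace Pool.Agent.Results.MP_ccfaf0_pr.NotReconstructable

/-- **Main result.** With `c = 1/14`: whenever `ε > 0` and `n^ε ≤ d_n ≤ n^(c-ε)` for all large `n`
(and `n * d_n` is even), the probability that a uniformly random `d_n`-regular graph on `n` vertices
is not reconstructable from its `3`-neighbourhoods tends to `1`. -/
theorem result (ε : ℝ) (hε : 0 < ε) (d : ℕ → ℕ) (heven : ∀ n, Even (n * d n))
    (hd : ∀ᶠ n : ℕ in atTop, (n : ℝ) ^ ε ≤ d n ∧ (d n : ℝ) ≤ (n : ℝ) ^ ((1 / 14 : ℝ) - ε)) :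
    Tendsto (fun n => probNotReconstructable 3 n (d n)) atTop (𝓝 1) :=
  main ε hε d heven hd

end Pool.Agent.Results.MP_ccfaf0_pr.NotReconstructable
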